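import Mathlib
import Pool.Agent.V11307.Lin.C45

set_option autoImplicit false

namespace Pool.Agent.Results.MP_c45f9b_nt.Full

open Finset Pool.Agent.V11307.Lin

/-- the Delannoy polynomial `D_n(x) = ∑_{k ≤ n} binom(n,k) binom(n+k,k) x^k` at an integer `x` -/
def D (n : ℕ) (x : ℤ) : ℤ := ∑ k ∈ range (n+1), (n.choose k : ℤ) * ((n+k).choose k : ℤ) * x^k

/-- **Q1 of MP_c45f9b (proved)**: for every integer `x` and every odd prime `p`,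
`∑_{k<p} (-1)^k (2k+1) D_k(x)^4 ≡ p ∑_{k ≤ (p-1)/2} (-1)^k binom(2k,k)^2 (x²+x)^k (2x+1)^{2k} (mod p³)`. -/
theorem result : ∀ (x : ℤ) (p : ℕ), p.Prime → p ≠ 2 →
    (p:ℤ)^3 ∣ (∑ k ∈ range p, (-1:ℤ)^k * (2*(k:ℤ)+1) * D k x ^ 4)
      - (p:ℤ) * ∑ k ∈ range ((p-1)/2+1), (-1:ℤ)^k * ((2*k).choose k : ℤ)^2 * (x^2+x)^k * (2*x+1)^(2*k) := by
  intro x p hp h2
  exact main hp h2 x

end Pool.Agent.Results.MP_c45f9b_nt.Full
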